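import Mathlib

/-!
Complex manifold structure on a quotient `X` of a space `W` that carries a developing map
`dev : W → E` (a local homeomorphism), when the identifications are induced by analytic maps of `E`.
-/

set_option autoImplicit false

open Set Filter Topology
open scoped Manifold ContDiff

namespace Pool.Agent.P.MP_c7085a_an

variable {W X E : Type*} [TopologicalSpace W] [TopologicalSpace X]
  [NormedAddCommGroup E] [NormedSpace ℂ E]

/-- Data of a quotient of a space with a developing map. -/
structure DevData (q : W → X) (dev : W → E) : Prop where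
  hq : IsLocalHomeomorph q
  surj : Function.Surjective q
  hdev : IsLocalHomeomorph dev
  compat : ∀ a b : W, q a = q b → ∃ (g : W → W) (ρ : E → E), Continuous g ∧ g a = b ∧
    (∀ w, q (g w) = q w) ∧ (∀ w, dev (g w) = ρ (dev w)) ∧ ContDiff ℂ ω ρ

namespace DevData

variable {q : W → X} {dev : W → E}

/-- The chart of `X` around `q w`. -/
noncomputable def chart (h : DevData q dev) (w : W) : OpenPartialHomeomorph X E :=
  (h.hq.localInverseAt w).trans (h.hdev.localInverseAt w).symm

theorem mem_chart_source (h : DevData q dev) (w : W) : q w ∈ (h.chart w).source := by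
  simp [chart]

theorem chart_apply (h : DevData q dev) (w : W) (x : X) :
    h.chart w x = dev (h.hq.localInverseAt w x) := by
  simp [chart]

/-- The charted space structure on `X`. -/
@[implicit_reducible]
noncomputable def chartedSpace (h : DevData q dev) : ChartedSpace E X where
  atlas := range h.chart
  chartAt x := h.chart (h.surj x).choose
  mem_chart_source x := by
    have := h.mem_chart_source (h.surj x).choose
    rwa [(h.surj x).choose_spec] at this
  chart_mem_atlas x := ⟨_, rfl⟩

/-- Near a point `a` with `q a` in the source of a chart, `chart ∘ q` is an analytic function of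
the developing map. -/
theorem chart_comp_q (h : DevData q dev) (w a : W) (ha : q a ∈ (h.chart w).source) :
    ∃ ρ : E → E, ContDiff ℂ ω ρ ∧ ∀ᶠ a' in 𝓝 a, h.chart w (q a') = ρ (dev a') := by
  have ha1 : q a ∈ (h.hq.localInverseAt w).source := ha.1
  set b := h.hq.localInverseAt w (q a) with hb
  have hqb : q b = q a := h.hq.apply_localInverseAt_of_mem ha1
  obtain ⟨g, ρ, hg, hgab, hqg, hdevg, hρ⟩ := h.compat a b hqb.symm
  refine ⟨ρ, hρ, ?_⟩
  have hbt : b ∈ (h.hq.localInverseAt w).target := (h.hq.localInverseAt w).map_source ha1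
  have hev : ∀ᶠ a' in 𝓝 a, g a' ∈ (h.hq.localInverseAt w).target := by
    apply hg.continuousAt.eventually_mem
    rw [hgab]
    exact (h.hq.localInverseAt w).open_target.mem_nhds hbt
  filter_upwards [hev] with a' ha'
  rw [chart_apply, ← hdevg, ← hqg a']
  congr 1
  have := (h.hq.localInverseAt w).right_inv ha'
  simpa using this

theorem isManifold (h : DevData q dev) :
    @IsManifold ℂ _ E _ _ E _ 𝓘(ℂ, E) ω X _ h.chartedSpace := by
  let _ := h.chartedSpace
  apply isManifold_of_contDiffOn
  rintro e e' ⟨w, rfl⟩ ⟨w', rfl⟩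
  simp only [modelWithCornersSelf_coe, modelWithCornersSelf_coe_symm, range_id, inter_univ,
    preimage_id_eq, id_eq, Function.comp_id, Function.id_comp]
  intro y hy
  apply ContDiffAt.contDiffWithinAt
  have hy1 : y ∈ (h.chart w).target := hy.1
  have hy2 : (h.chart w).symm y ∈ (h.chart w').source := hy.2
  have hy3 : y ∈ (h.hdev.localInverseAt w).source := hy1.1
  set a := h.hdev.localInverseAt w y with ha
  have hsymm : ∀ y', (h.chart w).symm y' = q (h.hdev.localInverseAt w y') := by
    intro y'; simp [chart]
  rw [hsymm] at hy2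
  obtain ⟨ρ, hρ, hev⟩ := h.chart_comp_q w' a hy2
  have hc : ContinuousAt (h.hdev.localInverseAt w) y :=
    (h.hdev.localInverseAt w).continuousAt hy3
  have hev2 := hc.eventually hev
  have hev3 : ∀ᶠ y' in 𝓝 y, y' ∈ (h.hdev.localInverseAt w).source :=
    (h.hdev.localInverseAt w).open_source.mem_nhds hy3
  refine hρ.contDiffAt.congr_of_eventuallyEq ?_
  filter_upwards [hev2, hev3] with y' h1 h2
  rw [h.hdev.apply_localInverseAt_of_mem h2] at h1
  simp only [OpenPartialHomeomorph.coe_trans, Function.comp_apply]
  rw [hsymm, h1]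

theorem mdifferentiable_comp (h : DevData q dev) {D E' : Type*} [TopologicalSpace D]
    [NormedAddCommGroup E'] [NormedSpace ℂ E'] [ChartedSpace E' D] (F : D → W)
    (hF : Continuous F) (hd : MDifferentiable 𝓘(ℂ, E') 𝓘(ℂ, E) (dev ∘ F)) :
    letI := h.chartedSpace
    MDifferentiable 𝓘(ℂ, E') 𝓘(ℂ, E) (q ∘ F) := by
  let _ := h.chartedSpace
  intro x
  rw [mdifferentiableAt_iff_target]
  refine ⟨(h.hq.continuous.comp hF).continuousAt, ?_⟩
  obtain ⟨ρ, hρ, hev⟩ := h.chart_comp_q (h.surj (q (F x))).choose (F x)
    (ChartedSpace.mem_chart_source (H := E) (q (F x)))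
  have hev2 := hF.continuousAt.eventually hev
  have h1 : MDifferentiableAt 𝓘(ℂ, E') 𝓘(ℂ, E) (ρ ∘ (dev ∘ F)) x :=
    ((hρ.differentiable (by simp)).mdifferentiable _).comp x (hd x)
  refine h1.congr_of_eventuallyEq ?_
  filter_upwards [hev2] with x' hx'
  simp only [extChartAt, OpenPartialHomeomorph.extend, Function.comp_apply,
    PartialEquiv.coe_trans, ModelWithCorners.toPartialEquiv_coe, modelWithCornersSelf_coe, id_eq,
    OpenPartialHomeomorph.toFun_eq_coe]
  exact hx'

end DevData

end Pool.Agent.P.MP_c7085a_an
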