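import Mathlib

/-!
The group `Λ ⋊ ℤ` acting on `(ℂ ∖ 0) × ℂ × ℂ`, where `Λ` is the lattice of pairs
`(m + n φ, m + n ψ)` with Gaussian integers `m, n` and `φ, ψ` the roots of `x ^ 2 = x + 1`.
-/

set_option autoImplicit false

open Set Filter Topology Complex
open scoped goldenRatio

namespace Pool.Agent.P.MP_c7085a_an

/-- The punctured plane. -/
abbrev S : Type := {s : ℂ // s ≠ 0}

/-- The total space. -/
abbrev W : Type := S × (ℂ × ℂ)

/-- Powers of the golden ratio. -/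
noncomputable def r (k : ℤ) : ℝ := φ ^ k

theorem r_pos (k : ℤ) : 0 < r k := zpow_pos Real.goldenRatio_pos k

theorem r_add (k l : ℤ) : r (k + l) = r k * r l := zpow_add₀ Real.goldenRatio_ne_zero k l

theorem r_zero : r 0 = 1 := zpow_zero _

theorem r_neg_mul (k : ℤ) : r (-k) * r k = 1 := by rw [← r_add, neg_add_cancel, r_zero]

theorem r_one_sq : r 1 ^ 2 = φ + 1 := by simp [r]

theorem r_neg_one_sq : r (-1) ^ 2 = ψ + 1 := by
  simp only [r, zpow_neg, zpow_one, Real.inv_goldenRatio, even_two, Even.neg_pow,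
    Real.goldenConj_sq]

theorem r_eq_one {k : ℤ} (h : r k = 1) : k = 0 := by
  have := zpow_right_injective₀ Real.goldenRatio_pos Real.one_lt_goldenRatio.ne'
    (a₁ := k) (a₂ := 0) (by simpa [r] using h)
  exact this

/-- The lattice point with integer coordinates `a b c d`. -/
noncomputable def lp (a b c d : ℤ) : ℂ × ℂ :=
  ((a + b * I) + (c + d * I) * (φ : ℝ), (a + b * I) + (c + d * I) * (ψ : ℝ))

/-- The lattice. -/
def Lam : AddSubgroup (ℂ × ℂ) where
  carrier := {v | ∃ a b c d : ℤ, v = lp a b c d}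
  zero_mem' := ⟨0, 0, 0, 0, by ext <;> simp [lp]⟩
  add_mem' := by
    rintro _ _ ⟨a, b, c, d, rfl⟩ ⟨a', b', c', d', rfl⟩
    refine ⟨a + a', b + b', c + c', d + d', ?_⟩
    ext <;> simp only [lp, Prod.fst_add, Prod.snd_add] <;> push_cast <;> ring
  neg_mem' := by
    rintro _ ⟨a, b, c, d, rfl⟩
    refine ⟨-a, -b, -c, -d, ?_⟩
    ext <;> simp only [lp, Prod.fst_neg, Prod.snd_neg] <;> push_cast <;> ring

/-- The linear part of the action on `ℂ × ℂ`. -/
noncomputable def A (k : ℤ) (v : ℂ × ℂ) : ℂ × ℂ :=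
  (((r k ^ 2 : ℝ) : ℂ) * v.1, ((r (-k) ^ 2 : ℝ) : ℂ) * v.2)

theorem A_zero (v : ℂ × ℂ) : A 0 v = v := by simp [A, r_zero]

theorem A_add (k l : ℤ) (v : ℂ × ℂ) : A (k + l) v = A k (A l v) := by
  ext
  · simp only [A, r_add]; push_cast; ring
  · simp only [A, neg_add, r_add]; push_cast; ring

theorem A_map_add (k : ℤ) (v w : ℂ × ℂ) : A k (v + w) = A k v + A k w := by
  ext <;> simp [A, mul_add]

theorem A_map_neg (k : ℤ) (v : ℂ × ℂ) : A k (-v) = -A k v := by
  ext <;> simp [A]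

theorem A_map_zero (k : ℤ) : A k 0 = 0 := by
  ext <;> simp [A]

theorem continuous_A (k : ℤ) : Continuous (A k) := by
  unfold A; fun_prop

theorem phi_sq_c : ((φ : ℝ) : ℂ) ^ 2 = (φ : ℝ) + 1 := by
  exact_mod_cast Real.goldenRatio_sq

theorem psi_sq_c : ((ψ : ℝ) : ℂ) ^ 2 = (ψ : ℝ) + 1 := by
  exact_mod_cast Real.goldenConj_sq

theorem phi_add_psi_c : ((φ : ℝ) : ℂ) + (ψ : ℝ) = 1 := by
  exact_mod_cast Real.goldenRatio_add_goldenConj

theorem A_one_lp (a b c d : ℤ) : A 1 (lp a b c d) = lp (a + c) (b + d) (a + 2 * c) (b + 2 * d) := by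
  ext
  · simp only [A, lp, r_one_sq]
    generalize hx : ((φ : ℝ) : ℂ) = x
    have h := phi_sq_c
    rw [hx] at h
    rw [ofReal_add, hx]
    push_cast
    linear_combination (c + d * I) * h
  · simp only [A, lp, r_neg_one_sq]
    generalize hx : ((ψ : ℝ) : ℂ) = x
    have h := psi_sq_c
    rw [hx] at h
    rw [ofReal_add, hx]
    push_cast
    linear_combination (c + d * I) * h

theorem A_neg_one_lp (a b c d : ℤ) :
    A (-1) (lp a b c d) = lp (2 * a - c) (2 * b - d) (c - a) (d - b) := by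
  have h := A_one_lp (2 * a - c) (2 * b - d) (c - a) (d - b)
  have h2 : lp (2 * a - c + (c - a)) (2 * b - d + (d - b)) (2 * a - c + 2 * (c - a))
      (2 * b - d + 2 * (d - b)) = lp a b c d := by
    congr 1 <;> ring
  rw [h2] at h
  rw [← h, ← A_add]
  simp [A_zero]

theorem A_mem (k : ℤ) {v : ℂ × ℂ} (hv : v ∈ Lam) : A k v ∈ Lam := by
  induction k using Int.induction_on with
  | zero => rwa [A_zero]
  | succ k ih =>
    rw [add_comm, A_add]
    obtain ⟨a, b, c, d, h⟩ := ih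
    rw [h, A_one_lp]
    exact ⟨_, _, _, _, rfl⟩
  | pred k ih =>
    rw [sub_eq_add_neg, add_comm, A_add]
    obtain ⟨a, b, c, d, h⟩ := ih
    rw [h, A_neg_one_lp]
    exact ⟨_, _, _, _, rfl⟩

/-- The group `Λ ⋊ ℤ`. -/
@[ext] structure G where
  k : ℤ
  v : ℂ × ℂ
  mem : v ∈ Lam

noncomputable instance : Mul G :=
  ⟨fun g h => ⟨g.k + h.k, g.v + A g.k h.v, Lam.add_mem g.mem (A_mem _ h.mem)⟩⟩

instance : One G := ⟨⟨0, 0, Lam.zero_mem⟩⟩

noncomputable instance : Inv G :=
  ⟨fun g => ⟨-g.k, -A (-g.k) g.v, Lam.neg_mem (A_mem _ g.mem)⟩⟩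

@[simp] theorem mul_k (g h : G) : (g * h).k = g.k + h.k := rfl
@[simp] theorem mul_v (g h : G) : (g * h).v = g.v + A g.k h.v := rfl
@[simp] theorem one_k : (1 : G).k = 0 := rfl
@[simp] theorem one_v : (1 : G).v = 0 := rfl
@[simp] theorem inv_k (g : G) : (g⁻¹).k = -g.k := rfl
@[simp] theorem inv_v (g : G) : (g⁻¹).v = -A (-g.k) g.v := rfl

noncomputable instance : Group G :=
  Group.ofLeftAxioms
    (fun a b c => by
      ext1
      · simp [add_assoc]
      · simp [A_map_add, A_add, add_assoc])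
    (fun a => by
      ext1
      · simp
      · simp [A_zero])
    (fun a => by
      ext1
      · simp
      · simp)

noncomputable instance : SMul G W :=
  ⟨fun g w => (⟨(r g.k : ℝ) * w.1.1, mul_ne_zero (by exact_mod_cast (r_pos g.k).ne') w.1.2⟩,
    g.v + A g.k w.2)⟩

theorem smul_fst (g : G) (w : W) : ((g • w).1 : ℂ) = (r g.k : ℝ) * w.1.1 := rfl

theorem smul_snd (g : G) (w : W) : (g • w).2 = g.v + A g.k w.2 := rfl

noncomputable instance : MulAction G W where
  one_smul w := by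
    ext1
    · apply Subtype.ext
      simp [smul_fst, r_zero]
    · simp [smul_snd, A_zero]
  mul_smul g h w := by
    ext1
    · apply Subtype.ext
      simp [smul_fst, r_add, mul_assoc]
    · simp [smul_snd, A_map_add, A_add, add_assoc]

instance : ContinuousConstSMul G W where
  continuous_const_smul g := by
    refine Continuous.prodMk ?_ ?_
    · refine Continuous.subtype_mk ?_ _
      fun_prop
    · exact continuous_const.add ((continuous_A g.k).comp continuous_snd)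

theorem eq_one_of_smul_eq {g : G} {w : W} (h : g • w = w) : g = 1 := by
  have h1 : ((r g.k : ℝ) : ℂ) * w.1.1 = w.1.1 := by
    rw [← smul_fst, h]
  have h2 : ((r g.k : ℝ) : ℂ) = 1 := by
    have := w.1.2
    exact mul_right_cancel₀ this (by rw [h1, one_mul])
  have hk : g.k = 0 := r_eq_one (by exact_mod_cast h2)
  have h3 : g.v + A g.k w.2 = w.2 := by rw [← smul_snd, h]
  rw [hk, A_zero] at h3
  ext1
  · simpa using hk
  · simpa using h3

instance : IsCancelSMul G W where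
  left_cancel' g a b h := by simpa using congrArg (g⁻¹ • ·) h
  right_cancel' g g' w h := by
    have : (g'⁻¹ * g) • w = w := by rw [mul_smul, h, inv_smul_smul]
    have := eq_one_of_smul_eq this
    exact (inv_mul_eq_one.mp this).symm

theorem lp_sub (a b c d : ℤ) : (lp a b c d).1 - (lp a b c d).2 = (c + d * I) * (√5 : ℝ) := by
  simp only [lp]
  rw [← Real.goldenRatio_sub_goldenConj]
  push_cast
  ring

theorem one_le_sqrt_five : (1 : ℝ) ≤ √5 := by
  rw [Real.one_le_sqrt]; norm_num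

theorem lp_bound {a b c d : ℤ} {B : ℝ} (h : ‖lp a b c d‖ ≤ B) :
    |(a : ℝ)| ≤ 5 * B ∧ |(b : ℝ)| ≤ 5 * B ∧ |(c : ℝ)| ≤ 5 * B ∧ |(d : ℝ)| ≤ 5 * B := by
  have h1 : ‖(lp a b c d).1‖ ≤ B := (norm_fst_le _).trans h
  have h2 : ‖(lp a b c d).2‖ ≤ B := (norm_snd_le _).trans h
  have hB : 0 ≤ B := (norm_nonneg _).trans h
  have h3 : ‖((c : ℂ) + d * I)‖ ≤ 2 * B := by
    have h4 : ‖((c : ℂ) + d * I) * (√5 : ℝ)‖ ≤ 2 * B := by
      rw [← lp_sub]
      linarith [norm_sub_le (lp a b c d).1 (lp a b c d).2]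
    rw [norm_mul, norm_real, Real.norm_eq_abs, abs_of_nonneg (Real.sqrt_nonneg _)] at h4
    nlinarith [norm_nonneg ((c : ℂ) + d * I), one_le_sqrt_five]
  have h5 : ‖((a : ℂ) + b * I)‖ ≤ 5 * B := by
    have : ((a : ℂ) + b * I) = (lp a b c d).1 - (c + d * I) * (φ : ℝ) := by
      simp only [lp]; ring
    rw [this]
    have h6 : ‖((c : ℂ) + d * I) * (φ : ℝ)‖ ≤ 4 * B := by
      rw [norm_mul, norm_real, Real.norm_eq_abs, abs_of_pos Real.goldenRatio_pos]
      nlinarith [norm_nonneg ((c : ℂ) + d * I), Real.goldenRatio_lt_two, Real.goldenRatio_pos]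
    linarith [norm_sub_le (lp a b c d).1 (((c : ℂ) + d * I) * (φ : ℝ))]
  have ha := abs_re_le_norm ((a : ℂ) + b * I)
  have hb := abs_im_le_norm ((a : ℂ) + b * I)
  have hc := abs_re_le_norm ((c : ℂ) + d * I)
  have hd := abs_im_le_norm ((c : ℂ) + d * I)
  simp only [add_re, intCast_re, mul_re, I_re, mul_zero, intCast_im, I_im, mul_one, sub_self,
    add_zero, add_im, mul_im, zero_add] at ha hb hc hd
  refine ⟨by linarith, by linarith, by linarith, by linarith⟩

theorem finite_int_abs_le (B : ℝ) : {n : ℤ | |(n : ℝ)| ≤ B}.Finite := by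
  refine (Set.finite_Icc (-⌈B⌉) ⌈B⌉).subset ?_
  intro n hn
  have hn' : |(n : ℝ)| ≤ B := hn
  rw [abs_le] at hn'
  have := Int.le_ceil B
  constructor
  · have : ((-⌈B⌉ : ℤ) : ℝ) ≤ n := by push_cast; linarith
    exact_mod_cast this
  · have : (n : ℝ) ≤ ((⌈B⌉ : ℤ) : ℝ) := by linarith
    exact_mod_cast this

theorem finite_G (N B : ℝ) : {g : G | |(g.k : ℝ)| ≤ N ∧ ‖g.v‖ ≤ B}.Finite := by
  have hf := (finite_int_abs_le N).prod ((finite_int_abs_le (5 * B)).prod
    ((finite_int_abs_le (5 * B)).prod ((finite_int_abs_le (5 * B)).prod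
    (finite_int_abs_le (5 * B)))))
  refine (hf.image (fun t : ℤ × ℤ × ℤ × ℤ × ℤ =>
    (⟨t.1, lp t.2.1 t.2.2.1 t.2.2.2.1 t.2.2.2.2, ⟨_, _, _, _, rfl⟩⟩ : G))).subset ?_
  rintro ⟨k, v, ⟨a, b, c, d, rfl⟩⟩ ⟨h1, h2⟩
  obtain ⟨ha, hb, hc, hd⟩ := lp_bound h2
  exact ⟨(k, a, b, c, d), ⟨h1, ha, hb, hc, hd⟩, rfl⟩

theorem continuous_logNorm : Continuous fun w : W => Real.log ‖w.1.1‖ := by
  refine Continuous.log (by fun_prop) ?_
  intro w
  exact norm_ne_zero_iff.mpr w.1.2

theorem log_phi_pos : 0 < Real.log φ := Real.log_pos Real.one_lt_goldenRatio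

theorem logNorm_smul (g : G) (w : W) :
    Real.log ‖(g • w).1.1‖ = g.k * Real.log φ + Real.log ‖w.1.1‖ := by
  rw [smul_fst, norm_mul, norm_real, Real.norm_eq_abs, abs_of_pos (r_pos _),
    Real.log_mul (r_pos _).ne' (norm_ne_zero_iff.mpr w.1.2), r, Real.log_zpow]

theorem r_le_exp {k : ℤ} {C : ℝ} (h : |(k : ℝ) * Real.log φ| ≤ C) : r k ≤ Real.exp C := by
  have : r k = Real.exp (k * Real.log φ) := by
    rw [← Real.log_zpow, Real.exp_log (zpow_pos Real.goldenRatio_pos k), r]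
  rw [this]
  exact Real.exp_le_exp.mpr ((le_abs_self _).trans h)

theorem norm_A_le {k : ℤ} {C : ℝ} (h : |(k : ℝ) * Real.log φ| ≤ C) (v : ℂ × ℂ) :
    ‖A k v‖ ≤ Real.exp C ^ 2 * ‖v‖ := by
  have h1 := r_le_exp h
  have h2 : r (-k) ≤ Real.exp C := r_le_exp (by push_cast; rwa [neg_mul, abs_neg])
  have h1' : r k ^ 2 ≤ Real.exp C ^ 2 := pow_le_pow_left₀ (r_pos _).le h1 2
  have h2' : r (-k) ^ 2 ≤ Real.exp C ^ 2 := pow_le_pow_left₀ (r_pos _).le h2 2
  rw [Prod.norm_def, max_le_iff]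
  constructor
  · simp only [A, norm_mul, norm_real, Real.norm_eq_abs, abs_pow, sq_abs]
    exact mul_le_mul h1' (norm_fst_le v) (norm_nonneg _) (by positivity)
  · simp only [A, norm_mul, norm_real, Real.norm_eq_abs, abs_pow, sq_abs]
    exact mul_le_mul h2' (norm_snd_le v) (norm_nonneg _) (by positivity)

instance : ProperlyDiscontinuousSMul G W where
  finite_disjoint_inter_image := by
    intro K L hK hL
    have hKL := hK.union hL
    obtain ⟨C, hC⟩ := hKL.exists_bound_of_continuousOn continuous_logNorm.continuousOn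
    obtain ⟨B, hB⟩ := hKL.exists_bound_of_continuousOn
      (continuous_snd : Continuous fun w : W => w.2).continuousOn
    refine (finite_G (2 * C / Real.log φ) (B + Real.exp (2 * C) ^ 2 * B)).subset ?_
    rintro g ⟨_, ⟨w, hw, rfl⟩, hw'⟩
    have h1 := hC w (Or.inl hw)
    have h2 := hC (g • w) (Or.inr hw')
    rw [logNorm_smul] at h2
    rw [Real.norm_eq_abs, abs_le] at h1 h2
    have h3 : |(g.k : ℝ) * Real.log φ| ≤ 2 * C := by
      rw [abs_le]; constructor <;> linarith [h1.1, h1.2, h2.1, h2.2]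
    constructor
    · rw [le_div_iff₀ log_phi_pos]
      rwa [abs_mul, abs_of_pos log_phi_pos] at h3
    · have h4 := hB w (Or.inl hw)
      have h5 := hB (g • w) (Or.inr hw')
      rw [smul_snd] at h5
      have h6 := norm_A_le h3 w.2
      have h7 : g.v = (g.v + A g.k w.2) - A g.k w.2 := by ring
      have h8 : Real.exp (2 * C) ^ 2 * ‖w.2‖ ≤ Real.exp (2 * C) ^ 2 * B :=
        mul_le_mul_of_nonneg_left h4 (by positivity)
      rw [h7]
      linarith [norm_sub_le (g.v + A g.k w.2) (A g.k w.2)]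

instance : LocallyCompactSpace S := (isOpen_ne (x := (0 : ℂ))).locallyCompactSpace

instance : ConnectedSpace S :=
  isConnected_iff_connectedSpace.mp
    (isConnected_compl_singleton_of_one_lt_rank (by simp) (0 : ℂ))

theorem exists_gauss_near (z : ℂ) : ∃ a b : ℤ, ‖z - (a + b * I)‖ ≤ 2 := by
  refine ⟨round z.re, round z.im, ?_⟩
  have h := norm_le_abs_re_add_abs_im (z - ((round z.re : ℤ) + (round z.im : ℤ) * I))
  simp only [sub_re, add_re, intCast_re, mul_re, I_re, mul_zero, intCast_im, I_im, mul_one,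
    sub_self, add_zero, sub_im, add_im, mul_im, zero_add] at h
  linarith [abs_sub_round z.re, abs_sub_round z.im]

theorem exists_lattice_near (v : ℂ × ℂ) : ∃ l ∈ Lam, ‖l + v‖ ≤ 6 := by
  have h5 : ((√5 : ℝ) : ℂ) ≠ 0 := by
    have : (√5 : ℝ) ≠ 0 := by linarith [one_le_sqrt_five]
    exact_mod_cast this
  set ν : ℂ := (v.1 - v.2) / (√5 : ℝ) with hν
  set μ : ℂ := v.1 - ν * (φ : ℝ) with hμ
  have hv1 : v.1 = μ + ν * (φ : ℝ) := by rw [hμ]; ring
  have hv2 : v.2 = μ + ν * (ψ : ℝ) := by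
    have h : ((φ : ℝ) : ℂ) - (ψ : ℝ) = (√5 : ℝ) := by
      exact_mod_cast Real.goldenRatio_sub_goldenConj
    have h' : ν * (√5 : ℝ) = v.1 - v.2 := by rw [hν]; field_simp
    rw [hμ]
    linear_combination h' + ν * h
  obtain ⟨a, b, hab⟩ := exists_gauss_near μ
  obtain ⟨c, d, hcd⟩ := exists_gauss_near ν
  refine ⟨-lp a b c d, Lam.neg_mem ⟨_, _, _, _, rfl⟩, ?_⟩
  rw [Prod.norm_def, max_le_iff]
  constructor
  · have : (-lp a b c d + v).1 = (μ - (a + b * I)) + (ν - (c + d * I)) * (φ : ℝ) := by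
      simp only [Prod.fst_add, Prod.fst_neg, lp]; rw [hv1]; ring
    rw [this]
    refine (norm_add_le _ _).trans ?_
    rw [norm_mul, norm_real, Real.norm_eq_abs, abs_of_pos Real.goldenRatio_pos]
    nlinarith [norm_nonneg (ν - (c + d * I)), Real.goldenRatio_lt_two, Real.goldenRatio_pos]
  · have : (-lp a b c d + v).2 = (μ - (a + b * I)) + (ν - (c + d * I)) * (ψ : ℝ) := by
      simp only [Prod.snd_add, Prod.snd_neg, lp]; rw [hv2]; ring
    rw [this]
    refine (norm_add_le _ _).trans ?_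
    rw [norm_mul, norm_real, Real.norm_eq_abs, abs_of_neg Real.goldenConj_neg]
    nlinarith [norm_nonneg (ν - (c + d * I)), Real.neg_one_lt_goldenConj, Real.goldenConj_neg]

/-- A compact set meeting every orbit. -/
def K0 : Set W := {s : S | 1 ≤ ‖s.1‖ ∧ ‖s.1‖ ≤ 2} ×ˢ Metric.closedBall (0 : ℂ × ℂ) 6

theorem isCompact_K0 : IsCompact K0 := by
  refine IsCompact.prod ?_ (isCompact_closedBall _ _)
  rw [Subtype.isCompact_iff]
  have : ((↑) : S → ℂ) '' {s : S | 1 ≤ ‖s.1‖ ∧ ‖s.1‖ ≤ 2} =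
      Metric.closedBall (0 : ℂ) 2 ∩ {s | 1 ≤ ‖s‖} := by
    ext s
    constructor
    · rintro ⟨s, ⟨h1, h2⟩, rfl⟩
      exact ⟨by simpa using h2, h1⟩
    · rintro ⟨h1, h2⟩
      have h2' : 1 ≤ ‖s‖ := h2
      refine ⟨⟨s, ?_⟩, ⟨h2', by simpa using h1⟩, rfl⟩
      rintro rfl
      norm_num at h2'
  rw [this]
  exact (isCompact_closedBall _ _).inter_right (isClosed_le continuous_const continuous_norm)

theorem exists_smul_mem_K0 (w : W) : ∃ g : G, g • w ∈ K0 := by
  obtain ⟨n, hn1, hn2⟩ := exists_mem_Ico_zpow (norm_pos_iff.mpr w.1.2) Real.one_lt_goldenRatio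
  obtain ⟨l, hl, hl'⟩ := exists_lattice_near (A (-n) w.2)
  refine ⟨⟨-n, l, hl⟩, ?_, ?_⟩
  · show 1 ≤ ‖((r (-n) : ℝ) : ℂ) * w.1.1‖ ∧ ‖((r (-n) : ℝ) : ℂ) * w.1.1‖ ≤ 2
    rw [norm_mul, norm_real, Real.norm_eq_abs, abs_of_pos (r_pos _)]
    have h1 := r_neg_mul n
    have h2 := r_pos (-n)
    have h3 : r n ≤ ‖w.1.1‖ := hn1
    have h4 : ‖w.1.1‖ < r n * φ := by
      have : r (n + 1) = r n * φ := by rw [r_add]; simp [r]
      rw [← this]; exact hn2
    constructor
    · nlinarith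
    · have h5 : r (-n) * ‖w.1.1‖ ≤ r (-n) * (r n * φ) := mul_le_mul_of_nonneg_left h4.le h2.le
      rw [← mul_assoc, h1] at h5
      linarith [Real.goldenRatio_lt_two]
  · simpa [smul_snd] using hl'

/-- The compact quotient. -/
abbrev X : Type := MulAction.orbitRel.Quotient G W

/-- The quotient map. -/
noncomputable def q : W → X := Quotient.mk (MulAction.orbitRel G W)

theorem q_surj : Function.Surjective q := Quotient.mk_surjective

theorem q_smul (g : G) (w : W) : q (g • w) = q w :=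
  Quotient.sound (MulAction.mem_orbit w g)

theorem q_eq {a b : W} (h : q a = q b) : ∃ g : G, g • a = b := by
  have := Quotient.exact h.symm
  exact this

theorem continuous_q : Continuous q := continuous_quotient_mk'

theorem q_localHomeo : IsLocalHomeomorph q :=
  (isQuotientCoveringMap_quotientMk_of_properlyDiscontinuousSMul (G := G)
    (E := W)).isCoveringMap.isLocalHomeomorph

instance : CompactSpace X where
  isCompact_univ := by
    have : (univ : Set X) = q '' K0 := by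
      symm
      rw [eq_univ_iff_forall]
      intro x
      obtain ⟨w, rfl⟩ := q_surj x
      obtain ⟨g, hg⟩ := exists_smul_mem_K0 w
      exact ⟨g • w, hg, q_smul g w⟩
    rw [this]
    exact isCompact_K0.image continuous_q

instance : T2Space X := t2Space_of_properlyDiscontinuousSMul_of_t2Space

instance : ConnectedSpace X := q_surj.connectedSpace continuous_q

end Pool.Agent.P.MP_c7085a_an
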