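import Mathlib
import Pool.Agent.P.MP_c7085a_an.GX
import Pool.Agent.P.MP_c7085a_an.Grp

/-!
The developing map on `W`, the complex structure on the compact quotient `X`, and the injective
holomorphic map attached to a square root of `Im z₁ + i Im z₂`.
-/

set_option autoImplicit false

open Set Filter Topology Complex
open scoped goldenRatio Manifold ContDiff

namespace Pool.Agent.P.MP_c7085a_an

/-- The real-linear change of coordinates `(y, x, w) ↦ (Re x + i Re y, Im x + i Im y, w)`. -/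
noncomputable def Lh : (ℂ × (ℂ × ℂ)) ≃ₜ (ℂ × ℂ × ℂ) where
  toFun t := (t.2.1.re + t.1.re * I, t.2.1.im + t.1.im * I, t.2.2)
  invFun z := (z.1.im + z.2.1.im * I, z.1.re + z.2.1.re * I, z.2.2)
  left_inv t := by
    ext <;> simp
  right_inv z := by
    ext <;> simp
  continuous_toFun := by fun_prop
  continuous_invFun := by fun_prop

/-- The developing map. -/
noncomputable def dev (w : W) : ℂ × ℂ × ℂ :=
  (w.2.1.re + (w.1.1 ^ 2).re * I, w.2.1.im + (w.1.1 ^ 2).im * I, w.2.2)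

theorem isLocalHomeomorph_prodMap {A B C D : Type*} [TopologicalSpace A] [TopologicalSpace B]
    [TopologicalSpace C] [TopologicalSpace D] {f : A → B} {g : C → D}
    (hf : IsLocalHomeomorph f) (hg : IsLocalHomeomorph g) : IsLocalHomeomorph (Prod.map f g) := by
  rintro ⟨a, c⟩
  obtain ⟨e, he, rfl⟩ := hf a
  obtain ⟨e', he', rfl⟩ := hg c
  exact ⟨e.prod e', ⟨he, he'⟩, rfl⟩

theorem sq_localHomeo : IsLocalHomeomorph fun s : S => s.1 ^ 2 := by
  have h1 := (isCoveringMap_npow (𝕜 := ℂ) 2 (by norm_num)).isLocalHomeomorph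
  have h2 : IsLocalHomeomorph (Subtype.val : S → ℂ) :=
    (isOpen_ne (x := (0 : ℂ))).isOpenEmbedding_subtypeVal.isLocalHomeomorph
  exact h2.comp h1

theorem dev_localHomeo : IsLocalHomeomorph dev :=
  Lh.isLocalHomeomorph.comp
    (isLocalHomeomorph_prodMap sq_localHomeo (Homeomorph.refl (ℂ × ℂ)).isLocalHomeomorph)

/-- The complex affine map of `ℂ³` attached to a group element. -/
noncomputable def rho (g : G) (z : ℂ × ℂ × ℂ) : ℂ × ℂ × ℂ :=
  (((r g.k ^ 2 : ℝ) : ℂ) * z.1 + g.v.1.re, ((r g.k ^ 2 : ℝ) : ℂ) * z.2.1 + g.v.1.im,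
    g.v.2 + ((r (-g.k) ^ 2 : ℝ) : ℂ) * z.2.2)

theorem contDiff_rho (g : G) : ContDiff ℂ ω (rho g) := by
  unfold rho
  fun_prop

theorem dev_smul (g : G) (w : W) : dev (g • w) = rho g (dev w) := by
  have h : ((g • w).1.1) ^ 2 = ((r g.k ^ 2 : ℝ) : ℂ) * w.1.1 ^ 2 := by
    rw [smul_fst]; push_cast; ring
  ext
  · simp only [dev, rho, h, smul_snd, A, Prod.fst_add, add_re, re_ofReal_mul]
    push_cast; ring
  · simp only [dev, rho, h, smul_snd, A, Prod.fst_add, add_im, im_ofReal_mul]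
    push_cast; ring
  · simp only [dev, rho, smul_snd, A, Prod.snd_add]

theorem devData : DevData q dev where
  hq := q_localHomeo
  surj := q_surj
  hdev := dev_localHomeo
  compat a b h := by
    obtain ⟨g, hg⟩ := q_eq h
    exact ⟨fun w => g • w, rho g, continuous_const_smul g, hg, q_smul g, dev_smul g,
      contDiff_rho g⟩

theorem lp_eq_zero {a b c d : ℤ} (h : (lp a b c d).2 = 0) : lp a b c d = 0 := by
  have h1 := congrArg re h
  have h2 := congrArg im h
  simp only [lp, add_re, intCast_re, mul_re, I_re, mul_zero, intCast_im, I_im, mul_one, sub_self,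
    add_zero, ofReal_re, add_im, mul_im, zero_add, ofReal_im, sub_zero, zero_re, zero_im] at h1 h2
  have key : ∀ m n : ℤ, (m : ℝ) + n * ψ = 0 → m = 0 ∧ n = 0 := by
    intro m n hmn
    by_cases hn : n = 0
    · subst hn
      refine ⟨?_, rfl⟩
      simpa using hmn
    · exfalso
      have := (Real.goldenConj_irrational.intCast_mul hn).intCast_add m
      rw [hmn] at this
      exact not_irrational_zero this
  obtain ⟨rfl, rfl⟩ := key a c h1
  obtain ⟨rfl, rfl⟩ := key b d h2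
  ext <;> simp [lp]

theorem exists_generic : ∃ w₀ : ℂ, ∀ g : G, g.v.2 + ((r (-g.k) ^ 2 : ℝ) : ℂ) * w₀ = w₀ → g = 1 := by
  have hc : (range fun t : ℤ × ℤ × ℤ × ℤ × ℤ =>
      (lp t.2.1 t.2.2.1 t.2.2.2.1 t.2.2.2.2).2 / (1 - ((r (-t.1) ^ 2 : ℝ) : ℂ))).Countable :=
    countable_range _
  have hne : (range fun t : ℤ × ℤ × ℤ × ℤ × ℤ =>
      (lp t.2.1 t.2.2.1 t.2.2.2.1 t.2.2.2.2).2 / (1 - ((r (-t.1) ^ 2 : ℝ) : ℂ))) ≠ univ := by
    intro h
    rw [h] at hc
    exact not_countable_complex hc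
  obtain ⟨w₀, hw₀⟩ := (ne_univ_iff_exists_notMem _).mp hne
  refine ⟨w₀, ?_⟩
  rintro ⟨k, v, ⟨a, b, c, d, rfl⟩⟩ hg
  simp only at hg
  by_cases hk : k = 0
  · subst hk
    have : (lp a b c d).2 = 0 := by simpa [r_zero] using hg
    ext1
    · rfl
    · exact lp_eq_zero this
  · exfalso
    apply hw₀
    refine ⟨(k, a, b, c, d), ?_⟩
    have h1 : (1 - ((r (-k) ^ 2 : ℝ) : ℂ)) ≠ 0 := by
      intro h
      have h2 : r (-k) ^ 2 = 1 := by
        have : ((r (-k) ^ 2 : ℝ) : ℂ) = 1 := by linear_combination -h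
        exact_mod_cast this
      have h3 : r (-k) = 1 := by
        have := r_pos (-k)
        nlinarith
      exact hk (by simpa using r_eq_one h3)
    simp only
    rw [div_eq_iff h1]
    linear_combination hg

theorem exists_injective {D : Type*} [TopologicalSpace D] [ChartedSpace (ℂ × ℂ) D]
    (p : D → ℂ × ℂ) (hp : MDifferentiable 𝓘(ℂ, ℂ × ℂ) 𝓘(ℂ, ℂ × ℂ) p)
    (s : D → ℂ) (hs : Continuous s) (hs0 : ∀ x, s x ≠ 0)
    (hs2 : ∀ x, s x ^ 2 = (p x).1.im + (p x).2.im * I)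
    (hinj : ∀ x y, p x = p y → s x = s y → x = y) :
    letI := devData.chartedSpace
    ∃ f : D → X, MDifferentiable 𝓘(ℂ, ℂ × ℂ) 𝓘(ℂ, ℂ × ℂ × ℂ) f ∧ Function.Injective f := by
  obtain ⟨w₀, hw₀⟩ := exists_generic
  have hpc : Continuous p := hp.continuous
  let F : D → W := fun x => (⟨s x, hs0 x⟩, ((p x).1.re + (p x).2.re * I, w₀))
  have hF : Continuous F := by
    refine Continuous.prodMk (hs.subtype_mk _) ?_
    fun_prop
  have hdev : dev ∘ F = fun x => ((p x).1, (p x).2, w₀) := by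
    funext x
    ext
    · simp [dev, F, hs2]
    · simp [dev, F, hs2]
    · simp [dev, F]
  refine ⟨q ∘ F, devData.mdifferentiable_comp F hF ?_, ?_⟩
  · rw [hdev]
    have h1 : Differentiable ℂ fun z : ℂ × ℂ => (z.1, z.2, w₀) := by fun_prop
    exact h1.mdifferentiable.comp hp
  · intro x y hxy
    obtain ⟨g, hg⟩ := q_eq hxy
    have h1 : g.v.2 + ((r (-g.k) ^ 2 : ℝ) : ℂ) * w₀ = w₀ := congrArg (fun w : W => w.2.2) hg
    rw [hw₀ g h1, one_smul] at hg
    have h2 : s x = s y := congrArg (fun w : W => w.1.1) hg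
    have h3 := congrArg dev hg
    have h4 : (dev ∘ F) x = (dev ∘ F) y := h3
    rw [hdev] at h4
    simp only [Prod.mk.injEq, and_true] at h4
    exact hinj x y (Prod.ext h4.1 h4.2) h2

end Pool.Agent.P.MP_c7085a_an
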