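import Mathlib

/-!
On a connected two-sheeted covering of the bidisk minus the real plane, the function
`Im z₁ + i Im z₂` has a continuous square root that separates the two points of each fibre.
-/

set_option autoImplicit false

open Set Filter Topology Complex

namespace Pool.Agent.P.MP_c7085a_an

/-- The bidisk minus the real plane. -/
abbrev Om : Type := {z : ℂ × ℂ // ‖z.1‖ < 1 ∧ ‖z.2‖ < 1 ∧ ¬ (z.1.im = 0 ∧ z.2.im = 0)}

/-- The bidisk. -/
def Bd : Set (ℂ × ℂ) := {z | ‖z.1‖ < 1 ∧ ‖z.2‖ < 1}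

theorem Bd_eq : Bd = Metric.ball 0 1 := by
  ext z
  simp [Bd, Prod.norm_def]

theorem convex_Bd : Convex ℝ Bd := Bd_eq ▸ convex_ball 0 1

theorem isOpen_Bd : IsOpen Bd := Bd_eq ▸ Metric.isOpen_ball

/-- The bidisk slit along a half-hyperplane. -/
def U (ε : ℝ) : Set (ℂ × ℂ) := Bd ∩ {z | 0 < ε * z.1.im ∨ z.2.im ≠ 0}

theorem isOpen_U (ε : ℝ) : IsOpen (U ε) := by
  have h1 : IsOpen {z : ℂ × ℂ | 0 < ε * z.1.im} := isOpen_lt continuous_const (by fun_prop)
  have h2 : IsOpen {z : ℂ × ℂ | z.2.im ≠ 0} := isOpen_ne_fun (by fun_prop) continuous_const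
  exact isOpen_Bd.inter (h1.union h2)

theorem U_sub {ε : ℝ} {z : ℂ × ℂ} (hz : z ∈ U ε) :
    ‖z.1‖ < 1 ∧ ‖z.2‖ < 1 ∧ ¬ (z.1.im = 0 ∧ z.2.im = 0) := by
  refine ⟨hz.1.1, hz.1.2, ?_⟩
  rintro ⟨h1, h2⟩
  rcases hz.2 with h | h
  · simp [h1] at h
  · exact h h2

theorem starConvex_U {ε : ℝ} (hε : ε * ε = 1) :
    StarConvex ℝ (((ε / 2 : ℝ) * I, 0) : ℂ × ℂ) (U ε) := by
  have hc : (((ε / 2 : ℝ) * I, 0) : ℂ × ℂ) ∈ Bd := by
    constructor
    · simp only [norm_mul, norm_real, norm_I, mul_one, Real.norm_eq_abs]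
      rw [abs_lt]
      constructor <;> nlinarith [sq_nonneg (ε - 1), sq_nonneg (ε + 1)]
    · simp
  intro y hy a b ha hb hab
  refine ⟨convex_Bd hc hy.1 ha hb hab, ?_⟩
  simp only [mem_ofPred_eq, Prod.fst_add, Prod.smul_fst, real_smul, add_im, mul_im, ofReal_re,
    ofReal_im, I_re, I_im, mul_re, Prod.snd_add, Prod.smul_snd, mul_zero, zero_mul, mul_one,
    add_zero, zero_add, sub_zero]
  rcases hb.eq_or_lt with rfl | hb'
  · left
    have : a = 1 := by linarith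
    subst this
    nlinarith
  · rcases hy.2 with h | h
    · left
      have h1 : 0 < b * (ε * y.1.im) := mul_pos hb' h
      nlinarith
    · right
      exact mul_ne_zero hb'.ne' h

/-- The base point. -/
noncomputable def z0 : ℂ × ℂ := (0, (1 / 2 : ℝ) * I)

theorem z0_mem_Bd : z0 ∈ Bd := by
  constructor
  · simp [z0]
  · simp only [z0, norm_mul, norm_real, norm_I]
    norm_num

theorem z0_im : 0 < z0.2.im := by simp [z0]

theorem z0_mem_U (ε : ℝ) : z0 ∈ U ε := ⟨z0_mem_Bd, Or.inr z0_im.ne'⟩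

variable {D : Type*} [TopologicalSpace D] {p : D → Om}

theorem exists_section (hp : IsCoveringMap p) {ε : ℝ} (hε : ε * ε = 1) (e₀ : D)
    (he : (p e₀).1 = z0) :
    ∃ σ : ℂ × ℂ → D, ContinuousOn σ (U ε) ∧ σ z0 = e₀ ∧ ∀ z ∈ U ε, (p (σ z)).1 = z := by
  classical
  have hs := starConvex_U hε
  have hne : (U ε).Nonempty := ⟨z0, z0_mem_U ε⟩
  have h1 : ContractibleSpace (U ε) := hs.contractibleSpace hne
  have h2 : LocallyPathConnectedSpace (U ε) := (isOpen_U ε).locallyPathConnectedSpace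
  let f : C(U ε, Om) := ⟨fun z => ⟨z.1, U_sub z.2⟩, by fun_prop⟩
  obtain ⟨F, ⟨hF0, hF⟩, -⟩ := hp.existsUnique_continuousMap_lifts f ⟨z0, z0_mem_U ε⟩ e₀
    (Subtype.ext he)
  refine ⟨fun z => if h : z ∈ U ε then F ⟨z, h⟩ else e₀, ?_, ?_, ?_⟩
  · rw [continuousOn_iff_continuous_domRestrict]
    refine F.continuous.congr ?_
    intro z
    simp [z.2]
  · simp [z0_mem_U, hF0]
  · intro z hz
    simp only [hz, dif_pos]
    have := congrFun hF ⟨z, hz⟩
    exact congrArg Subtype.val this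

theorem isOpen_fix (hp : IsCoveringMap p) {V : Set D} (hV : IsOpen V) {g : D → D}
    (hg : ContinuousOn g V) (hpg : ∀ x ∈ V, p (g x) = p x) :
    IsOpen {x | x ∈ V ∧ g x = x} ∧ IsOpen {x | x ∈ V ∧ g x ≠ x} := by
  have h1 : Continuous (V.domRestrict g) := continuousOn_iff_continuous_domRestrict.mp hg
  have h2 : Continuous (Subtype.val : V → D) := continuous_subtype_val
  have he : p ∘ V.domRestrict g = p ∘ (Subtype.val : V → D) := funext fun x => hpg x.1 x.2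
  have ho := hp.isLocalHomeomorph.isLocallyInjective.isOpen_eqLocus h1 h2 he
  have hc := hp.isSeparatedMap.isClosed_eqLocus h1 h2 he
  constructor
  · convert hV.isOpenMap_subtype_val _ ho using 1
    ext x
    simp only [mem_ofPred_eq, mem_image, Subtype.exists, exists_and_right, exists_eq_right]
    exact ⟨fun h => ⟨h.1, h.2⟩, fun ⟨h1, h2⟩ => ⟨h1, h2⟩⟩
  · convert hV.isOpenMap_subtype_val _ hc.isOpen_compl using 1
    ext x
    simp only [mem_ofPred_eq, mem_image, Subtype.exists, exists_and_right, exists_eq_right,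
      mem_compl_iff]
    exact ⟨fun h => ⟨h.1, h.2⟩, fun ⟨h1, h2⟩ => ⟨h1, h2⟩⟩

theorem sqrt_sq (w : ℂ) : w.sqrt ^ 2 = w := by
  unfold Complex.sqrt
  exact_mod_cast cpow_nat_inv_pow w (n := 2) (by norm_num)

theorem sqrt_re_pos {w : ℂ} (hw : w ∈ slitPlane) : 0 < w.sqrt.re := by
  unfold Complex.sqrt
  rw [cpow_inv_two_re]
  apply Real.sqrt_pos.mpr
  have h1 := abs_re_le_norm w
  rcases mem_slitPlane_iff.mp hw with h | h
  · linarith [norm_nonneg w]
  · have h2 := abs_re_lt_norm.mpr h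
    rw [abs_lt] at h2
    linarith [h2.1]

/-- The imaginary part of `z`, as a complex number. -/
noncomputable def hh (z : ℂ × ℂ) : ℂ := z.1.im + z.2.im * I

theorem hh_re (z : ℂ × ℂ) : (hh z).re = z.1.im := by simp [hh]

theorem hh_im (z : ℂ × ℂ) : (hh z).im = z.2.im := by simp [hh]

theorem continuous_hh : Continuous hh := by unfold hh; fun_prop

/-- First branch of the square root. -/
noncomputable def r1 (z : ℂ × ℂ) : ℂ := (hh z).sqrt

/-- Second branch of the square root. -/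
noncomputable def r2 (z : ℂ × ℂ) : ℂ := I * (-hh z).sqrt

theorem r1_sq (z : ℂ × ℂ) : r1 z ^ 2 = hh z := sqrt_sq _

theorem r2_sq (z : ℂ × ℂ) : r2 z ^ 2 = hh z := by
  rw [r2, mul_pow, sqrt_sq, I_sq]; ring

theorem slit1 {z : ℂ × ℂ} (hz : z ∈ U 1) : hh z ∈ slitPlane := by
  rw [mem_slitPlane_iff, hh_re, hh_im]
  simpa using hz.2

theorem slit2 {z : ℂ × ℂ} (hz : z ∈ U (-1)) : -hh z ∈ slitPlane := by
  rw [mem_slitPlane_iff, neg_re, neg_im, hh_re, hh_im]
  simpa using hz.2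

theorem continuousAt_r1 {z : ℂ × ℂ} (hz : z ∈ U 1) : ContinuousAt r1 z :=
  ContinuousAt.comp (f := hh) (differentiableAt_sqrt (slit1 hz)).continuousAt
    continuous_hh.continuousAt

theorem continuousAt_r2 {z : ℂ × ℂ} (hz : z ∈ U (-1)) : ContinuousAt r2 z :=
  continuousAt_const.mul (ContinuousAt.comp (f := fun z => -hh z)
    (differentiableAt_sqrt (slit2 hz)).continuousAt continuous_hh.neg.continuousAt)

theorem r1_re_pos {z : ℂ × ℂ} (hz : z ∈ U 1) : 0 < (r1 z).re := sqrt_re_pos (slit1 hz)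

theorem r2_im_pos {z : ℂ × ℂ} (hz : z ∈ U (-1)) : 0 < (r2 z).im := by
  have := sqrt_re_pos (slit2 hz)
  simpa [r2] using this

theorem im_eq (z : ℂ × ℂ) : z.2.im = 2 * (r1 z).re * (r1 z).im := by
  rw [← hh_im, ← r1_sq, sq, mul_im]; ring

theorem r1_eq_or (z : ℂ × ℂ) : r1 z = r2 z ∨ r1 z = -r2 z :=
  sq_eq_sq_iff_eq_or_eq_neg.mp ((r1_sq z).trans (r2_sq z).symm)

theorem mem_U_of_im {z : ℂ × ℂ} (hz : z ∈ Bd) (h : z.2.im ≠ 0) (ε : ℝ) : z ∈ U ε :=
  ⟨hz, Or.inr h⟩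

theorem r_upper {z : ℂ × ℂ} (hz : z ∈ Bd) (h : 0 < z.2.im) : r1 z = r2 z := by
  have h1 := r1_re_pos (mem_U_of_im hz h.ne' 1)
  have h2 := r2_im_pos (mem_U_of_im hz h.ne' (-1))
  have h3 := im_eq z
  rcases r1_eq_or z with h4 | h4
  · exact h4
  · exfalso
    have h5 : (r1 z).im = -(r2 z).im := by rw [h4, neg_im]
    nlinarith [mul_pos h1 h2]

theorem r_lower {z : ℂ × ℂ} (hz : z ∈ Bd) (h : z.2.im < 0) : r1 z = -r2 z := by
  have h1 := r1_re_pos (mem_U_of_im hz h.ne 1)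
  have h2 := r2_im_pos (mem_U_of_im hz h.ne (-1))
  have h3 := im_eq z
  rcases r1_eq_or z with h4 | h4
  · exfalso
    have h5 : (r1 z).im = (r2 z).im := by rw [h4]
    nlinarith [mul_pos h1 h2]
  · exact h4

theorem mem_U_or (z : Om) : z.1 ∈ U 1 ∨ z.1 ∈ U (-1) := by
  obtain ⟨z, h1, h2, h3⟩ := z
  by_cases h : z.2.im = 0
  · have h4 : z.1.im ≠ 0 := fun h' => h3 ⟨h', h⟩
    rcases h4.lt_or_gt with h5 | h5
    · exact Or.inr ⟨⟨h1, h2⟩, Or.inl (by simpa using h5)⟩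
    · exact Or.inl ⟨⟨h1, h2⟩, Or.inl (by simpa using h5)⟩
  · exact Or.inl ⟨⟨h1, h2⟩, Or.inr h⟩

theorem im_ne_of_both {z : ℂ × ℂ} (h1 : z ∈ U 1) (h2 : z ∈ U (-1)) : z.2.im ≠ 0 := by
  rcases h1.2 with h | h
  · rcases h2.2 with h' | h'
    · linarith
    · exact h'
  · exact h

theorem hh_ne_zero (z : Om) : hh z.1 ≠ 0 := by
  intro h
  apply z.2.2.2
  exact ⟨by rw [← hh_re, h, zero_re], by rw [← hh_im, h, zero_im]⟩

theorem preconn_upper : IsPreconnected (Bd ∩ {z : ℂ × ℂ | 0 < z.2.im}) := by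
  refine (convex_Bd.inter ?_).isPreconnected
  exact convex_halfSpace_gt (f := fun z : ℂ × ℂ => z.2.im)
    ⟨fun _ _ => by simp, fun _ _ => by simp⟩ 0

theorem preconn_lower : IsPreconnected (Bd ∩ {z : ℂ × ℂ | z.2.im < 0}) := by
  refine (convex_Bd.inter ?_).isPreconnected
  exact convex_halfSpace_lt (f := fun z : ℂ × ℂ => z.2.im)
    ⟨fun _ _ => by simp, fun _ _ => by simp⟩ 0

theorem exists_sqrt [ConnectedSpace D] (hp : IsCoveringMap p)
    (h2 : ∀ z, (p ⁻¹' {z}).ncard = 2) :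
    ∃ s : D → ℂ, Continuous s ∧ (∀ x, s x ≠ 0) ∧
      (∀ x, s x ^ 2 = (p x).1.1.im + (p x).1.2.im * I) ∧
      ∀ x y, p x = p y → s x = s y → x = y := by
  classical
  have hP : Continuous fun x => (p x).1 := continuous_subtype_val.comp hp.continuous
  -- two elements of a fibre exhaust it
  have two : ∀ a b x : D, a ≠ b → p a = p x → p b = p x → x = a ∨ x = b := by
    intro a b x hab ha hb
    obtain ⟨u, v, huv, h⟩ := ncard_eq_two.mp (h2 (p x))
    have ha' : a ∈ p ⁻¹' {p x} := ha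
    have hb' : b ∈ p ⁻¹' {p x} := hb
    have hx' : x ∈ p ⁻¹' {p x} := rfl
    rw [h] at ha' hb' hx'
    rcases ha' with rfl | rfl <;> rcases hb' with rfl | rfl <;> rcases hx' with rfl | rfl <;>
      simp_all
  obtain ⟨e₀, e₁, he01, he⟩ := ncard_eq_two.mp (h2 ⟨z0, U_sub (z0_mem_U 1)⟩)
  have he₀ : (p e₀).1 = z0 := by
    have : e₀ ∈ p ⁻¹' {⟨z0, U_sub (z0_mem_U 1)⟩} := by rw [he]; simp
    exact congrArg Subtype.val this
  have he₁ : (p e₁).1 = z0 := by
    have : e₁ ∈ p ⁻¹' {⟨z0, U_sub (z0_mem_U 1)⟩} := by rw [he]; simp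
    exact congrArg Subtype.val this
  obtain ⟨σ₁, hc₁, h0₁, hs₁⟩ := exists_section hp (ε := 1) (by norm_num) e₀ he₀
  obtain ⟨σ₂, hc₂, h0₂, hs₂⟩ := exists_section hp (ε := -1) (by norm_num) e₀ he₀
  have hV₁ : IsOpen {x | (p x).1 ∈ U 1} := (isOpen_U 1).preimage hP
  have hV₂ : IsOpen {x | (p x).1 ∈ U (-1)} := (isOpen_U (-1)).preimage hP
  have hp₁ : ∀ x, (p x).1 ∈ U 1 → p (σ₁ (p x).1) = p x := fun x hx => Subtype.ext (hs₁ _ hx)
  have hp₂ : ∀ x, (p x).1 ∈ U (-1) → p (σ₂ (p x).1) = p x := fun x hx => Subtype.ext (hs₂ _ hx)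
  obtain ⟨hO₁, hO₁'⟩ := isOpen_fix hp hV₁ (g := fun x => σ₁ (p x).1)
    (hc₁.comp hP.continuousOn fun x hx => hx) hp₁
  obtain ⟨hO₂, hO₂'⟩ := isOpen_fix hp hV₂ (g := fun x => σ₂ (p x).1)
    (hc₂.comp hP.continuousOn fun x hx => hx) hp₂
  have agree : ∀ T : Set (ℂ × ℂ), IsPreconnected T → (∀ z ∈ T, z ∈ Bd ∧ z.2.im ≠ 0) →
      ∀ a ∈ T, σ₁ a = σ₂ a → ∀ z ∈ T, σ₁ z = σ₂ z := by
    intro T hT hsub a ha h
    have m1 : T ⊆ U 1 := fun z hz => mem_U_of_im (hsub z hz).1 (hsub z hz).2 _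
    have m2 : T ⊆ U (-1) := fun z hz => mem_U_of_im (hsub z hz).1 (hsub z hz).2 _
    refine hp.eqOn_of_comp_eqOn hT (hc₁.mono m1) (hc₂.mono m2) ?_ ha h
    intro z hz
    exact Subtype.ext ((hs₁ z (m1 hz)).trans (hs₂ z (m2 hz)).symm)
  have upper : ∀ z ∈ Bd, 0 < z.2.im → σ₁ z = σ₂ z := fun z hz h =>
    agree _ preconn_upper (fun z hz => ⟨hz.1, ne_of_gt hz.2⟩) z0 ⟨z0_mem_Bd, z0_im⟩
      (h0₁.trans h0₂.symm) z ⟨hz, h⟩
  have lower : ∀ z ∈ Bd, z.2.im < 0 → σ₁ z ≠ σ₂ z := by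
    intro a ha ha' hσ
    have low := agree _ preconn_lower (fun z hz => ⟨hz.1, ne_of_lt hz.2⟩) a ⟨ha, ha'⟩ hσ
    have both : ∀ z, z ∈ U 1 → z ∈ U (-1) → σ₁ z = σ₂ z := by
      intro z h1 h2
      rcases (im_ne_of_both h1 h2).lt_or_gt with h | h
      · exact low z ⟨h1.1, h⟩
      · exact upper z h1.1 h
    have hclopen : IsClopen ({x | (p x).1 ∈ U 1 ∧ σ₁ (p x).1 = x} ∪
        {x | (p x).1 ∈ U (-1) ∧ σ₂ (p x).1 = x}) := by
      refine ⟨⟨?_⟩, hO₁.union hO₂⟩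
      convert hO₁'.union hO₂' using 1
      ext x
      simp only [mem_compl_iff, mem_union, mem_ofPred_eq, not_or, not_and]
      constructor
      · rintro ⟨h1, h2⟩
        rcases mem_U_or (p x) with h | h
        · exact Or.inl ⟨h, h1 h⟩
        · exact Or.inr ⟨h, h2 h⟩
      · rintro (⟨h1, h2⟩ | ⟨h1, h2⟩)
        · exact ⟨fun _ => h2, fun h => both _ h1 h ▸ h2⟩
        · exact ⟨fun h => (both _ h h1).symm ▸ h2, fun _ => h2⟩
    have huniv := hclopen.eq_univ ⟨e₀, Or.inl ⟨he₀ ▸ z0_mem_U 1, by rw [he₀, h0₁]⟩⟩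
    have hmem : e₁ ∈ ({x | (p x).1 ∈ U 1 ∧ σ₁ (p x).1 = x} ∪
        {x | (p x).1 ∈ U (-1) ∧ σ₂ (p x).1 = x}) := by rw [huniv]; trivial
    rcases hmem with ⟨-, h⟩ | ⟨-, h⟩
    · rw [he₁, h0₁] at h; exact he01 h
    · rw [he₁, h0₂] at h; exact he01 h
  let s : D → ℂ := fun x =>
    if (p x).1 ∈ U 1 then (if σ₁ (p x).1 = x then r1 (p x).1 else -r1 (p x).1)
    else (if σ₂ (p x).1 = x then r2 (p x).1 else -r2 (p x).1)
  have F1 : ∀ x, (p x).1 ∈ U 1 →
      s x = if σ₁ (p x).1 = x then r1 (p x).1 else -r1 (p x).1 := by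
    intro x hx
    simp only [s, hx, if_true]
  have F2 : ∀ x, (p x).1 ∈ U (-1) →
      s x = if σ₂ (p x).1 = x then r2 (p x).1 else -r2 (p x).1 := by
    intro x hx
    by_cases hx1 : (p x).1 ∈ U 1
    · rw [F1 x hx1]
      rcases (im_ne_of_both hx1 hx).lt_or_gt with h | h
      · have hne := lower _ hx1.1 h
        rw [r_lower hx1.1 h]
        rcases two _ _ x hne (hp₁ x hx1) (hp₂ x hx) with h' | h'
        · rw [if_pos h'.symm, if_neg (fun h'' => hne (h'.symm.trans h''.symm))]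
        · rw [if_neg (fun h'' => hne (h''.trans h')), if_pos h'.symm, neg_neg]
      · rw [upper _ hx1.1 h, r_upper hx1.1 h]
    · simp only [s, hx1, if_false]
  have hsq : ∀ x, s x ^ 2 = hh (p x).1 := by
    intro x
    simp only [s]
    split_ifs <;> simp [r1_sq, r2_sq]
  have hs0 : ∀ x, s x ≠ 0 := by
    intro x hx
    have := hsq x
    rw [hx] at this
    exact hh_ne_zero (p x) (by rw [← this]; simp)
  refine ⟨s, ?_, hs0, hsq, ?_⟩
  · rw [continuous_iff_continuousAt]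
    intro x
    rcases mem_U_or (p x) with hx | hx
    · have hc : ContinuousAt (fun x => r1 (p x).1) x :=
        ContinuousAt.comp (f := fun x => (p x).1) (continuousAt_r1 hx) hP.continuousAt
      by_cases h : σ₁ (p x).1 = x
      · refine hc.congr ?_
        filter_upwards [hO₁.mem_nhds ⟨hx, h⟩] with y hy
        rw [F1 y hy.1, if_pos hy.2]
      · refine hc.neg.congr ?_
        filter_upwards [hO₁'.mem_nhds ⟨hx, h⟩] with y hy
        rw [F1 y hy.1, if_neg hy.2]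
        rfl
    · have hc : ContinuousAt (fun x => r2 (p x).1) x :=
        ContinuousAt.comp (f := fun x => (p x).1) (continuousAt_r2 hx) hP.continuousAt
      by_cases h : σ₂ (p x).1 = x
      · refine hc.congr ?_
        filter_upwards [hO₂.mem_nhds ⟨hx, h⟩] with y hy
        rw [F2 y hy.1, if_pos hy.2]
      · refine hc.neg.congr ?_
        filter_upwards [hO₂'.mem_nhds ⟨hx, h⟩] with y hy
        rw [F2 y hy.1, if_neg hy.2]
        rfl
  · have gen : ∀ (x y e : D) (ρ : ℂ), p e = p x → p x = p y → s x = (if e = x then ρ else -ρ) →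
        s y = (if e = y then ρ else -ρ) → s x = s y → x = y := by
      intro x y e ρ he hxy hx hy hs
      by_contra hne
      have hρ : ρ ≠ -ρ := by
        intro h
        have h0 : ρ = 0 := by linear_combination h / 2
        apply hs0 x
        rw [hx, h0]; simp
      rcases two x y e hne he.symm (he.trans hxy).symm with h | h
      · rw [hx, hy, if_pos h, if_neg (fun h' => hne (h.symm.trans h'))] at hs
        exact hρ hs
      · rw [hx, hy, if_pos h, if_neg (fun h' => hne (h'.symm.trans h))] at hs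
        exact hρ hs.symm
    intro x y hxy hs
    rcases mem_U_or (p x) with hx | hx
    · exact gen x y _ _ (hp₁ x hx) hxy (F1 x hx) (by rw [hxy]; exact F1 y (hxy ▸ hx)) hs
    · exact gen x y _ _ (hp₂ x hx) hxy (F2 x hx) (by rw [hxy]; exact F2 y (hxy ▸ hx)) hs

end Pool.Agent.P.MP_c7085a_an
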